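import Mathlib
import Pool.Agent.V11298.OntologyModal

/-!
The propositional ontology `L1` embeds in Grzegorczyk's logic.
-/

namespace Pool.Agent.Results.MP_36ff06_lc.EmbedsInGrz

open Pool.Agent.V11298.OntologyModal

/-- There is a modal formula in two variables whose translation is sound and faithful for
Grzegorczyk's logic, for every injective assignment of propositional variables to name
variables. -/
theorem result : ∃ F : MForm (Fin 2), ∀ p : ℕ → ℕ, Function.Injective p →
    ∀ φ : LForm, L1 φ ↔ Prov AxGrz (translate F p φ) :=
  ⟨chi, embeds valid_Grz⟩

end Pool.Agent.Results.MP_36ff06_lc.EmbedsInGrz
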